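import Pool.Agent.N437.QR.Stm

/-!
# Project QR (helper437), part LIM: limits of the partition functions (helper82)
-/

set_option autoImplicit false

namespace Pool.Agent.N82.QR

open Finset Filter Topology Pool.Agent.N437.QR

theorem t_LIM (h : S_ZB) : S_LIM := by
  intro m hm1 hm
  have hm0 : ∀ n, (0 : ℝ) < m n := fun n => by exact_mod_cast hm1 n
  have hm1' : ∀ n, (1 : ℝ) ≤ m n := fun n => by exact_mod_cast hm1 n
  have hN : Tendsto (fun n => m n ^ 3) atTop atTop :=
    (tendsto_pow_atTop (by norm_num : (3 : ℕ) ≠ 0)).comp hm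
  have hmr : Tendsto (fun n => (m n : ℝ)) atTop atTop := tendsto_natCast_atTop_atTop.comp hm
  refine ⟨?_, ?_, ?_⟩
  · have h1 := (Real.tendsto_one_add_div_pow_exp (-1)).comp hN
    refine h1.congr fun n => ?_
    simp only [Function.comp_apply]
    congr 1
    rw [Nat.cast_pow]
    field_simp
  · have hlim : Tendsto (fun n => Real.exp (1 / (m n : ℝ))) atTop (𝓝 1) := by
      have h0 : Tendsto (fun n => 1 / (m n : ℝ)) atTop (𝓝 0) := by
        simp only [one_div]
        exact tendsto_inv_atTop_zero.comp hmr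
      have := (Real.continuous_exp.tendsto 0).comp h0
      rwa [Real.exp_zero] at this
    refine tendsto_of_tendsto_of_tendsto_of_le_of_le tendsto_const_nhds hlim (fun n => ?_)
      (fun n => ?_)
    · simp only
      apply one_le_pow₀
      have : 0 ≤ (-(1 / (m n : ℝ))) ^ 4 := by positivity
      linarith
    · simp only
      have e1 : 1 + (-(1 / (m n : ℝ))) ^ 4 ≤ Real.exp ((-(1 / (m n : ℝ))) ^ 4) := by
        have := Real.add_one_le_exp ((-(1 / (m n : ℝ))) ^ 4)
        linarith
      calc (1 + (-(1 / (m n : ℝ))) ^ 4) ^ (m n ^ 3)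
          ≤ (Real.exp ((-(1 / (m n : ℝ))) ^ 4)) ^ (m n ^ 3) :=
            pow_le_pow_left₀ (by positivity) e1 _
        _ = Real.exp (1 / (m n : ℝ)) := by
            rw [← Real.exp_nat_mul]
            congr 1
            have := (hm0 n).ne'
            push_cast
            field_simp
  · intro V _ _ E hE
    refine ⟨Real.exp (2 ^ E.card), fun n => ?_⟩
    have ha : |(-(1 / (m n : ℝ)))| = 1 / m n := by
      rw [abs_neg, abs_of_pos (by have := hm0 n; positivity)]
    have hle : |(-(1 / (m n : ℝ)))| ≤ 1 := by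
      rw [ha, div_le_one (hm0 n)]
      exact hm1' n
    have h1 := h E (-(1 / (m n : ℝ))) hE hle
    rw [ha] at h1
    have h2 : |Zf E (-(1 / (m n : ℝ)))| ≤ Real.exp (2 ^ E.card * (1 / (m n : ℝ)) ^ 3) := by
      have h3 : |Zf E (-(1 / (m n : ℝ)))| ≤ 1 + 2 ^ E.card * (1 / (m n : ℝ)) ^ 3 := by
        have := abs_sub_abs_le_abs_sub (Zf E (-(1 / (m n : ℝ)))) 1
        rw [abs_one] at this
        linarith
      have := Real.add_one_le_exp (2 ^ E.card * (1 / (m n : ℝ)) ^ 3)
      linarith
    rw [abs_pow]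
    calc |Zf E (-(1 / (m n : ℝ)))| ^ (m n ^ 3)
        ≤ (Real.exp (2 ^ E.card * (1 / (m n : ℝ)) ^ 3)) ^ (m n ^ 3) :=
          pow_le_pow_left₀ (abs_nonneg _) h2 _
      _ = Real.exp (2 ^ E.card) := by
          rw [← Real.exp_nat_mul]
          congr 1
          have := (hm0 n).ne'
          push_cast
          field_simp

end Pool.Agent.N82.QR
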